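import Mathlib
import Pool.Agent.W25.TF.Fin
import Pool.Agent.Y877.LimU
import Pool.Agent.Y877.Lim
import Pool.Agent.Y877.FThm
import Pool.Agent.W142.TF.Sel

/-! Sets of times which meet the differences of classes contain half (five ninths) of the members of
every almost multiplicatively invariant finite set (abstract forms of `Pool.Agent.Y877.consecHalf` and
`Pool.Agent.Y877.GQ.nineF`). -/

set_option autoImplicit false

namespace Pool.Agent.H39x.OM

open Finset Filter Topology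
open Pool.Agent.W25.TF Pool.Agent.W142.TB Pool.Agent.Y877

open Classical in
/-- four classes: one half -/
theorem halfA (hS : S_maiF4) (G : Set ℕ) (W Kc : ℕ) (hW1 : 1 ≤ W)
    (hG : ∀ H : Fin 4 → Fin Kc → ℕ, Function.Injective (fun z : Fin 4 × Fin Kc => H z.1 z.2) →
      ∃ g g' i i', g ≠ g' ∧ H g i < H g' i' ∧ W * (H g' i' - H g i) ∈ G)
    (ε : ℝ) (hε : 0 < ε) : ∃ K : ℕ, 1 ≤ K ∧
    ∀ F : Finset ℕ, (∀ n ∈ F, 1 ≤ n) → AInv K F →
    (1 / 2 - ε) * (F.card : ℝ) ≤ ((F.filter (fun n => n ∈ G)).card : ℝ) := by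
  by_contra hcon
  push Not at hcon
  have hε2 : ε ≤ 1 / 2 := by
    obtain ⟨F, -, -, h⟩ := hcon 1 le_rfl
    by_contra h2
    push Not at h2
    have h3 : (0 : ℝ) ≤ F.card := Nat.cast_nonneg _
    have h4 : (0 : ℝ) ≤ ((F.filter (fun n => n ∈ G)).card : ℝ) := Nat.cast_nonneg _
    nlinarith
  choose F hFpos hFinv hFbad using fun j : ℕ => hcon (j + 1) (by omega)
  have hFne : ∀ j, (F j).Nonempty := by
    intro j
    rw [nonempty_iff_ne_empty]
    intro h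
    have h1 := hFbad j
    rw [h] at h1
    simp at h1
  obtain ⟨U, hU1, hU2⟩ := limU (1 / 2) (ε / 4) (by positivity) (by norm_num) (by linarith) W hW1 F
    (fun _ => Gᶜ) hFne
    (fun j k hk hkj => by
      refine le_trans ?_ (hFinv j k hk (by omega))
      exact Nat.mul_le_mul_right _ (by omega))
    (fun j => by
      have h1 : ((F j).filter (fun m => m ∈ G)).card +
          ((F j).filter (fun m => m ∈ Gᶜ)).card = (F j).card := by
        have e : (F j).filter (fun m => m ∈ Gᶜ) = (F j).filter (fun m => ¬ m ∈ G) := by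
          refine filter_congr fun m _ => ?_
          exact Iff.rfl
        rw [e]
        exact card_filter_add_card_filter_not _
      have h2 : (((F j).filter (fun m => m ∈ G)).card : ℝ) +
          (((F j).filter (fun m => m ∈ Gᶜ)).card : ℝ) = ((F j).card : ℝ) := by exact_mod_cast h1
      have h3 : (((F j).filter (fun m => m ∈ G)).card : ℝ) < _ := hFbad j
      have h5 : (0 : ℝ) ≤ (F j).card := Nat.cast_nonneg _
      have h7 : (1 / 2 + 3 * (ε / 4)) * ((F j).card : ℝ) ≤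
          (((F j).filter (fun m => m ∈ Gᶜ)).card : ℝ) := by nlinarith
      convert h7)
  obtain ⟨Q, A, hQ1, hinj, hUU⟩ := hS U (ε / 4) (by positivity) hU1 Kc
  obtain ⟨Z, hZ⟩ : ∃ Z : Finset ℤ, Z = ((univ : Finset ((Fin 4 × Fin Kc) × (Fin 4 × Fin Kc))).filter
      (fun z => z.1.1 < z.2.1)).image (fun z => (Q z.2.1 : ℤ) * A z.2.1 z.2.2 - (Q z.1.1 : ℤ) * A z.1.1 z.1.2) :=
    ⟨_, rfl⟩
  obtain ⟨j, -, m, hm, hbad⟩ := hU2 Z (fun z hz => by
    rw [hZ, mem_image] at hz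
    obtain ⟨⟨⟨g, i⟩, ⟨g', i'⟩⟩, hz1, rfl⟩ := hz
    have hlt : g < g' := (mem_filter.1 hz1).2
    exact hUU g g' hlt g'.2 i' i i'.2 i.2) 0
  have hm0 := hFpos j m hm
  -- the shift
  obtain ⟨C₀, hC₀⟩ : ∃ C₀ : ℤ, C₀ = ∑ z : Fin 4 × Fin Kc, |(Q z.1 : ℤ) * A z.1 z.2| := ⟨_, rfl⟩
  have hC₀1 : ∀ (g : Fin 4) (i : Fin Kc), 0 ≤ (Q g : ℤ) * A g i + C₀ := by
    intro g i
    have h1 : |(Q g : ℤ) * A g i| ≤ C₀ := by
      rw [hC₀]
      exact single_le_sum (f := fun z : Fin 4 × Fin Kc => |(Q z.1 : ℤ) * A z.1 z.2|)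
        (fun _ _ => abs_nonneg _) (mem_univ (g, i))
    have h2 := neg_abs_le ((Q g : ℤ) * A g i)
    linarith
  obtain ⟨H, hH⟩ : ∃ H : Fin 4 → Fin Kc → ℕ, H = fun (g : Fin 4) (i : Fin Kc) =>
    ((Q g : ℤ) * A g i + C₀).toNat := ⟨_, rfl⟩
  have hHz : ∀ g i, (H g i : ℤ) = (Q g : ℤ) * A g i + C₀ := by
    intro g i
    rw [hH]
    exact Int.toNat_of_nonneg (hC₀1 g i)
  have hdz : ∀ (g g' : Fin 4) (i i' : Fin Kc), g ≠ g' →
      (H g' i' : ℤ) - H g i ≠ 0 ∧ W * ((H g' i' : ℤ) - H g i).natAbs * m ∉ G := by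
    intro g g' i i' hne
    have e : (H g' i' : ℤ) - H g i = (Q g' : ℤ) * A g' i' - (Q g : ℤ) * A g i := by
      rw [hHz, hHz]; ring
    rcases lt_or_gt_of_ne hne with hlt | hlt
    · rw [e]
      exact hbad _ (by
        rw [hZ, mem_image]
        exact ⟨⟨⟨g, i⟩, ⟨g', i'⟩⟩, mem_filter.2 ⟨mem_univ _, hlt⟩, rfl⟩)
    · have e2 : (H g' i' : ℤ) - H g i = -((Q g : ℤ) * A g i - (Q g' : ℤ) * A g' i') := by
        rw [hHz, hHz]; ring
      have h1 := hbad ((Q g : ℤ) * A g i - (Q g' : ℤ) * A g' i') (by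
        rw [hZ, mem_image]
        exact ⟨⟨⟨g', i'⟩, ⟨g, i⟩⟩, mem_filter.2 ⟨mem_univ _, hlt⟩, rfl⟩)
      rw [e2, Int.natAbs_neg]
      exact ⟨neg_ne_zero.2 h1.1, h1.2⟩
  have hHinj : Function.Injective (fun z : Fin 4 × Fin Kc => H z.1 z.2) := by
    rintro ⟨g, i⟩ ⟨g', i'⟩ h
    have h1 : H g i = H g' i' := h
    by_cases hgg : g = g'
    · subst hgg
      have h2 : (Q g : ℤ) * A g i = (Q g : ℤ) * A g i' := by
        have h3 : (H g i : ℤ) = H g i' := by exact_mod_cast h1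
        rw [hHz, hHz] at h3
        linarith
      have hQ0 : (Q g : ℤ) ≠ 0 := by have := hQ1 g; omega
      have h4 := hinj g i.2 i'.2 (mul_left_cancel₀ hQ0 h2)
      exact Prod.ext rfl (Fin.ext h4)
    · exact absurd (by rw [h1]; ring) (hdz g g' i i' hgg).1
  obtain ⟨g, g', i, i', hne, hlt, hgap⟩ := hG (fun g i => H g i * m) (by
      intro z z' h
      have h1 : H z.1 z.2 * m = H z'.1 z'.2 * m := h
      exact hHinj (Nat.eq_of_mul_eq_mul_right hm0 h1))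
  obtain ⟨hz0, hzb⟩ := hdz g g' i i' hne
  apply hzb
  have hlt2 : H g i < H g' i' := by
    have h1 : H g i * m < H g' i' * m := hlt
    exact Nat.lt_of_mul_lt_mul_right h1
  have h3 : ((H g' i' : ℤ) - H g i).natAbs = H g' i' - H g i := by omega
  rw [h3]
  have h4 : W * (H g' i' - H g i) * m = W * (H g' i' * m - H g i * m) := by
    rw [← Nat.sub_mul, mul_assoc]
  rw [h4]
  exact hgap

open Classical in
/-- many classes: five ninths -/
theorem nineA (hS : S_maiB) (ε : ℝ) (hε : 0 < ε) : ∃ n : ℕ, 1 ≤ n ∧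
    ∀ (G : Set ℕ) (W Kc : ℕ), 1 ≤ W →
    (∀ H : Fin n → Fin Kc → ℕ, Function.Injective (fun z : Fin n × Fin Kc => H z.1 z.2) →
      ∃ (S : Finset (Fin n)) (c : Fin n → Fin Kc), (n : ℝ) ≤ (18 / 5) * S.card ∧
        ∀ g ∈ S, ∀ g' ∈ S, H g (c g) < H g' (c g') → W * (H g' (c g') - H g (c g)) ∈ G) →
    ∃ K : ℕ, 1 ≤ K ∧ ∀ F : Finset ℕ, (∀ n ∈ F, 1 ≤ n) → AInv K F →
    (5 / 9 - ε) * (F.card : ℝ) ≤ ((F.filter (fun n => n ∈ G)).card : ℝ) := by
  obtain ⟨ε', hε'⟩ : ∃ ε' : ℝ, ε' = min (ε / 3) 1 := ⟨_, rfl⟩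
  have hε'0 : 0 < ε' := by rw [hε']; positivity
  have hε'1 : ε' ≤ 1 := by rw [hε']; exact min_le_right _ _
  have hε'3 : 3 * ε' ≤ ε := by
    have : ε' ≤ ε / 3 := by rw [hε']; exact min_le_left _ _
    linarith
  obtain ⟨β, hβ⟩ : ∃ β : ℝ, β = 5 / 18 := ⟨_, rfl⟩
  have hβ5 : 1 / 5 ≤ β := by rw [hβ]; norm_num
  have hβ2 : β ≤ 1 / 2 := by rw [hβ]; norm_num
  obtain ⟨n₀, hn₀⟩ := lim hS β ε' hβ5 hβ2 hε'0 hε'1
  obtain ⟨n, hn⟩ : ∃ n, n = max n₀ 1 := ⟨_, rfl⟩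
  have hnn₀ : n₀ ≤ n := by omega
  have hn1 : 1 ≤ n := by omega
  refine ⟨n, hn1, fun G W Kc hW1 HC => ?_⟩
  by_contra hcon
  push Not at hcon
  choose F hFpos hFinv hFbad using fun j : ℕ => hcon (j + 1) (by omega)
  have hFne : ∀ j, (F j).Nonempty := by
    intro j
    rw [nonempty_iff_ne_empty]
    intro h
    have h1 := hFbad j
    rw [h] at h1
    simp at h1
  obtain ⟨Q, A, s', hs', hQ1, hinj, hfin⟩ := hn₀ n hnn₀ (n * Kc) W hW1 F (fun _ => Gᶜ) hFne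
    (fun j k hk hkj => by
      refine le_trans ?_ (hFinv j k hk (by omega))
      exact Nat.mul_le_mul_right _ (by omega))
    (fun j => by
      have h1 : ((F j).filter (fun m => m ∈ G)).card +
          ((F j).filter (fun m => m ∈ Gᶜ)).card = (F j).card := by
        have e : (F j).filter (fun m => m ∈ Gᶜ) = (F j).filter (fun m => ¬ m ∈ G) := by
          refine filter_congr fun m _ => ?_
          exact Iff.rfl
        rw [e]
        exact card_filter_add_card_filter_not _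
      have h2 : (((F j).filter (fun m => m ∈ G)).card : ℝ) +
          (((F j).filter (fun m => m ∈ Gᶜ)).card : ℝ) = ((F j).card : ℝ) := by exact_mod_cast h1
      have h3 := hFbad j
      have h5 : (0 : ℝ) ≤ (F j).card := Nat.cast_nonneg _
      have h6 : (1 - 2 * β + 3 * ε') * ((F j).card : ℝ) ≤ (4 / 9 + ε) * (F j).card := by
        apply mul_le_mul_of_nonneg_right _ h5
        rw [hβ]
        linarith
      have h7 : (1 - 2 * β + 3 * ε') * ((F j).card : ℝ) ≤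
          (((F j).filter (fun m => m ∈ Gᶜ)).card : ℝ) := by nlinarith
      convert h7)
  obtain ⟨σ, hσ1, hσ2⟩ := Pool.Agent.W142.TF.select_aux n Kc (fun g i => (Q g : ℤ) * A g i) (fun g => by
    intro x hx y hy hxy
    have hQ0 : (Q g : ℤ) ≠ 0 := by have := hQ1 g; omega
    exact hinj g hx hy (mul_left_cancel₀ hQ0 hxy)) n le_rfl
  -- the shift
  obtain ⟨C₀, hC₀⟩ : ∃ C₀ : ℤ, C₀ = ∑ z : Fin n × Fin Kc, |(Q z.1 : ℤ) * A z.1 (σ z.1 z.2)| := ⟨_, rfl⟩
  have hC₀1 : ∀ (g : Fin n) (i : Fin Kc), 0 ≤ (Q g : ℤ) * A g (σ g i) + C₀ := by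
    intro g i
    have h1 : |(Q g : ℤ) * A g (σ g i)| ≤ C₀ := by
      rw [hC₀]
      exact single_le_sum (f := fun z : Fin n × Fin Kc => |(Q z.1 : ℤ) * A z.1 (σ z.1 z.2)|)
        (fun _ _ => abs_nonneg _) (mem_univ (g, i))
    have h2 := neg_abs_le ((Q g : ℤ) * A g (σ g i))
    linarith
  obtain ⟨H, hH⟩ : ∃ H : Fin n → Fin Kc → ℕ, H = fun (g : Fin n) (i : Fin Kc) =>
    ((Q g : ℤ) * A g (σ g i) + C₀).toNat := ⟨_, rfl⟩
  have hHz : ∀ g i, (H g i : ℤ) = (Q g : ℤ) * A g (σ g i) + C₀ := by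
    intro g i
    rw [hH]
    exact Int.toNat_of_nonneg (hC₀1 g i)
  obtain ⟨j, hj, m, hm, hbad⟩ := hfin 0
  have hm0 := hFpos j m hm
  obtain ⟨S, τ, hScard, hSpr⟩ := HC (fun g i => H g i * m) (by
      rintro ⟨g, i⟩ ⟨g', i'⟩ h
      have h1 : H g i * m = H g' i' * m := h
      have h3 : H g i = H g' i' := Nat.eq_of_mul_eq_mul_right hm0 h1
      have h5 : (Q g : ℤ) * A g (σ g i) = (Q g' : ℤ) * A g' (σ g' i') := by
        have h6 : (H g i : ℤ) = H g' i' := by exact_mod_cast h3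
        rw [hHz, hHz] at h6
        linarith
      have h7 := hσ2 g g.2 g' g'.2 i i.2 i' i'.2 h5
      exact Prod.ext (Fin.ext h7.1) (Fin.ext h7.2))
  obtain ⟨i, hi, k, hk, hik⟩ := hs'.2 (S.map Fin.valEmbedding) (fun x hx => by
    rw [Finset.mem_map] at hx
    obtain ⟨y, _, rfl⟩ := hx
    exact mem_range.2 y.2) (by
      rw [card_map, hβ]
      linarith)
  rw [Finset.mem_map] at hi hk
  obtain ⟨i', hi', rfl⟩ := hi
  obtain ⟨k', hk', rfl⟩ := hk
  obtain ⟨hne, hB⟩ := hbad k' k'.2 i' hik (σ k' (τ k')) (σ i' (τ i')) (hσ1 _ k'.2 _ (τ k').2)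
    (hσ1 _ i'.2 _ (τ i').2)
  apply hB
  have hdiff : (Q k' : ℤ) * A k' (σ k' (τ k')) - (Q i' : ℤ) * A i' (σ i' (τ i')) =
      (H k' (τ k') : ℤ) - H i' (τ i') := by
    rw [hHz, hHz]; ring
  have hval : (Fin.valEmbedding k' : ℕ) = k' := rfl
  have hvali : (Fin.valEmbedding i' : ℕ) = i' := rfl
  rw [hdiff] at hne ⊢
  rcases lt_or_gt_of_ne (fun h : H k' (τ k') = H i' (τ i') => hne (by rw [h]; ring)) with hlt | hlt
  · have h1 := hSpr k' hk' i' hi' (by
      show H k' (τ k') * m < H i' (τ i') * m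
      exact Nat.mul_lt_mul_of_pos_right hlt hm0)
    have h2 : W * (H i' (τ i') * m - H k' (τ k') * m) = W * ((H k' (τ k') : ℤ) - H i' (τ i')).natAbs * m := by
      have h3 : ((H k' (τ k') : ℤ) - H i' (τ i')).natAbs = H i' (τ i') - H k' (τ k') := by omega
      rw [h3, ← Nat.sub_mul, mul_assoc]
    rw [← h2]
    exact h1
  · have h1 := hSpr i' hi' k' hk' (by
      show H i' (τ i') * m < H k' (τ k') * m
      exact Nat.mul_lt_mul_of_pos_right hlt hm0)
    have h2 : W * (H k' (τ k') * m - H i' (τ i') * m) = W * ((H k' (τ k') : ℤ) - H i' (τ i')).natAbs * m := by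
      have h3 : ((H k' (τ k') : ℤ) - H i' (τ i')).natAbs = H k' (τ k') - H i' (τ i') := by omega
      rw [h3, ← Nat.sub_mul, mul_assoc]
    rw [← h2]
    exact h1

end Pool.Agent.H39x.OM
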