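import Pool.Agent.H39x.OM.Core
import Pool.Agent.Y862.OGI
import Pool.Agent.Y827.GS.Iso

/-! Orbits of `x ↦ D x + e`: half (five ninths) of the members of every almost multiplicatively
invariant finite set of times. -/

set_option autoImplicit false

namespace Pool.Agent.H39x.OM

open Finset Filter Topology
open Pool.Agent.H447R3.IT Pool.Agent.H732R3.BigQ
open Pool.Agent.W218.OG (Pr pr_nat big_count)
open Pool.Agent.TH899.UG Pool.Agent.TH899.UG.OG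
open Pool.Agent.Y877 (AInv)

/-- the numbers `p` for which the value at time `k` of the orbit of `p` is the next prime, and both
primes are isolated up to `R` -/
def NextSet (D : ℕ) (e : ℤ) (R k : ℕ) : Set ℕ := {p : ℕ | p.Prime ∧
  Pr ((S D e)^[k] (p : ℤ)) ∧ (∀ l, 0 < l → l < k → ¬ Pr ((S D e)^[l] (p : ℤ))) ∧
  ∀ l, 0 < l → l ≤ R → ¬ Pr ((S D e)^[k + l] (p : ℤ)) ∧ ∀ z : ℤ, Pr z → (S D e)^[l] z ≠ p}

/-- the same with at most `J` primes in between -/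
def FewSet (D : ℕ) (e : ℤ) (J R k : ℕ) : Set ℕ := {p : ℕ | p.Prime ∧
  Pr ((S D e)^[k] (p : ℤ)) ∧ {l : ℕ | 0 < l ∧ l < k ∧ Pr ((S D e)^[l] (p : ℤ))}.ncard ≤ J ∧
  ∀ l, 0 < l → l ≤ R → ¬ Pr ((S D e)^[l] (p : ℤ)) ∧ ¬ Pr ((S D e)^[k + l] (p : ℤ)) ∧
    ¬ Pr ((S D e)^[k - l] (p : ℤ)) ∧ ∀ z : ℤ, Pr z → (S D e)^[l] z ≠ p}

open Classical in
/-- one half -/
theorem halfO (D : ℕ) (e : ℤ) (m : ℕ) (hD : 2 ≤ D) (he : e ≠ 0) (hcop : IsCoprime e (D : ℤ))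
    (hm0 : 0 < m) (hm : ∀ p : ℕ, p.Prime → p ∣ D - 1 → (p : ℤ) ∣ e * m) (R : ℕ)
    (ε : ℝ) (hε : 0 < ε) : ∃ K : ℕ, 1 ≤ K ∧
    ∀ F : Finset ℕ, (∀ n ∈ F, 1 ≤ n) → AInv K F →
    (1 / 2 - ε) * (F.card : ℝ) ≤ ((F.filter (fun n => Big (NextSet D e R n))).card : ℝ) := by
  obtain ⟨W, hWd⟩ : ∃ W, W = m * (R + 1) := ⟨_, rfl⟩
  have hWR : R < W := by
    rw [hWd]
    nlinarith
  have hW0 : 0 < W := by omega
  have hW : ∀ p : ℕ, p.Prime → p ∣ D - 1 → (p : ℤ) ∣ e * W := by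
    intro p hp hpd
    rw [hWd]
    push_cast
    rw [← mul_assoc]
    exact (hm p hp hpd).mul_right _
  obtain ⟨K, hK, h⟩ := Pool.Agent.Y862.consecM D e W hD he hcop hW0 hW R hWR
  exact halfA Pool.Agent.W25.TF.s_maiF4 {n | Big (NextSet D e R n)} W K hW0
    (fun H hinj => h H hinj) ε hε

open Classical in
/-- five ninths -/
theorem nineO (ε : ℝ) (hε : 0 < ε) : ∃ J : ℕ, ∀ (D : ℕ) (e : ℤ) (m : ℕ), 2 ≤ D → e ≠ 0 →
    IsCoprime e (D : ℤ) → 0 < m → (∀ p : ℕ, p.Prime → p ∣ D - 1 → (p : ℤ) ∣ e * m) → ∀ R : ℕ,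
    ∃ K : ℕ, 1 ≤ K ∧
    ∀ F : Finset ℕ, (∀ n ∈ F, 1 ≤ n) → AInv K F →
    (5 / 9 - ε) * (F.card : ℝ) ≤ ((F.filter (fun n => Big (FewSet D e J R n))).card : ℝ) := by
  obtain ⟨n, hn1, hn⟩ := nineA Pool.Agent.W142.TB.s_maiB ε hε
  obtain ⟨K, hK, hQ⟩ := Pool.Agent.Y827.GS.quarterGD n
  refine ⟨n * K, ?_⟩
  intro D e m hD he hcop hm0 hm R
  obtain ⟨W, hWd⟩ : ∃ W, W = m * (R + 1) := ⟨_, rfl⟩
  have hWR : R < W := by
    rw [hWd]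
    nlinarith
  have hW0 : 0 < W := by omega
  have hW : ∀ p : ℕ, p.Prime → p ∣ D - 1 → (p : ℤ) ∣ e * W := by
    intro p hp hpd
    rw [hWd]
    push_cast
    rw [← mul_assoc]
    exact (hm p hp hpd).mul_right _
  refine hn {k | Big (FewSet D e (n * K) R k)} W K hW0 fun H hinj => ?_
  exact classesI D e W hD he hcop hW0 hW R hWR (fun S => (n : ℝ) ≤ (18 / 5) * S.card) hQ H hinj

end Pool.Agent.H39x.OM
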